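import Mathlib

/-!
# Super Delta-points along rays

If `x` is a super `Δ`-point of the unit ball `B_X` of a Banach space `X`, then so is `c • x` for
every scalar `c` with `‖c‖ ≤ 1`. In particular, for `x` in the unit sphere and `0 < r < 1`, the
point `r x` is a super `Δ`-point (Q1 of MP_48b6db_an).

The proof uses the affine self-map `y ↦ u (a y - b x)` of the ball, where `c = u t`, `t = ‖c‖`,
`a = (1 + t ‖x‖) / (1 + ‖x‖)` and `b = (1 - t) / (1 + ‖x‖)`.
-/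

set_option autoImplicit false

open Set Metric

namespace Pool.Agent.Results.MP_48b6db_an.RaysOfSuperDelta

variable (𝕜 : Type*) [RCLike 𝕜] {X : Type*} [NormedAddCommGroup X] [NormedSpace 𝕜 X]

/-- `V` is a (non-empty) relatively weakly open subset of the closed unit ball. -/
def IsRelWeaklyOpen (V : Set X) : Prop :=
  V.Nonempty ∧ ∃ U : Set (WeakSpace 𝕜 X), IsOpen U ∧ V = closedBall 0 1 ∩ toWeakSpace 𝕜 X ⁻¹' U

/-- `x` is a super `Δ`-point: `x` is in the closed unit ball and, for every relatively weakly open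
subset `V` of the closed unit ball with `x ∈ V`, the supremum of `‖x - y‖` over `y ∈ V` is
`1 + ‖x‖`. -/
def IsSuperDelta (x : X) : Prop :=
  x ∈ closedBall (0 : X) 1 ∧
    ∀ V : Set X, IsRelWeaklyOpen 𝕜 V → x ∈ V → IsLUB ((fun y => ‖x - y‖) '' V) (1 + ‖x‖)

/-- If `x` is a super `Δ`-point of `B_X`, then `c • x` is a super `Δ`-point for every scalar `c`
with `‖c‖ ≤ 1`. -/
theorem result [CompleteSpace X] (x : X) (hx : IsSuperDelta 𝕜 x) (c : 𝕜) (hc : ‖c‖ ≤ 1) :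
    IsSuperDelta 𝕜 (c • x) := by
  obtain ⟨hx1, hx2⟩ := hx
  rw [mem_closedBall_zero_iff] at hx1
  set s := ‖x‖ with hs
  have hs0 : 0 ≤ s := norm_nonneg x
  have hcs : ‖c • x‖ = ‖c‖ * s := norm_smul c x
  have hc0 : 0 ≤ ‖c‖ := norm_nonneg c
  have hcx1 : ‖c • x‖ ≤ 1 := by rw [hcs]; nlinarith
  refine ⟨by rwa [mem_closedBall_zero_iff], ?_⟩
  rintro V ⟨-, U, hU, rfl⟩ hxV
  -- the scalar `u` of modulus one
  obtain ⟨u, hu1, hu2⟩ : ∃ u : 𝕜, ‖u‖ = 1 ∧ c = u * (‖c‖ : 𝕜) := by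
    by_cases h : c = 0
    · exact ⟨1, norm_one, by simp [h]⟩
    · refine ⟨c / (‖c‖ : 𝕜), ?_, ?_⟩
      · rw [norm_div, RCLike.norm_ofReal, abs_of_nonneg hc0, div_self (norm_ne_zero_iff.2 h)]
      · rw [div_mul_cancel₀]
        exact_mod_cast norm_ne_zero_iff.2 h
  set a : ℝ := (1 + ‖c‖ * s) / (1 + s) with ha
  set b : ℝ := (1 - ‖c‖) / (1 + s) with hb
  have h1s : 0 < 1 + s := by linarith
  have ha0 : 0 ≤ a := by positivity
  have hb0 : 0 ≤ b := div_nonneg (by linarith) h1s.le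
  have hab : a - b = ‖c‖ := by
    rw [ha, hb]; field_simp; ring
  have habs : a + b * s = 1 := by
    rw [ha, hb]; field_simp; ring
  have has : a * (1 + s) = 1 + ‖c‖ * s := by
    rw [ha]; field_simp
  let T : X → X := fun y => u • ((a : 𝕜) • y - (b : 𝕜) • x)
  have hTx : T x = c • x := by
    show u • ((a : 𝕜) • x - (b : 𝕜) • x) = c • x
    rw [← sub_smul, smul_smul, ← RCLike.ofReal_sub, hab, ← hu2]
  have hTball : ∀ y ∈ closedBall (0 : X) 1, T y ∈ closedBall (0 : X) 1 := by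
    intro y hy
    rw [mem_closedBall_zero_iff] at hy ⊢
    show ‖u • ((a : 𝕜) • y - (b : 𝕜) • x)‖ ≤ 1
    rw [norm_smul, hu1, one_mul]
    calc ‖(a : 𝕜) • y - (b : 𝕜) • x‖ ≤ ‖(a : 𝕜) • y‖ + ‖(b : 𝕜) • x‖ := norm_sub_le _ _
      _ = a * ‖y‖ + b * s := by
        rw [norm_smul, norm_smul, RCLike.norm_ofReal, RCLike.norm_ofReal, abs_of_nonneg ha0,
          abs_of_nonneg hb0]
      _ ≤ a * 1 + b * s := by gcongr
      _ = 1 := by rw [mul_one, habs]
  have hTdist : ∀ y, ‖c • x - T y‖ = a * ‖x - y‖ := by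
    intro y
    rw [← hTx]
    show ‖u • ((a : 𝕜) • x - (b : 𝕜) • x) - u • ((a : 𝕜) • y - (b : 𝕜) • x)‖ = a * ‖x - y‖
    rw [← smul_sub, sub_sub_sub_cancel_right, ← smul_sub, norm_smul, norm_smul, hu1, one_mul,
      RCLike.norm_ofReal, abs_of_nonneg ha0]
  -- the preimage of the neighbourhood
  let Tw : WeakSpace 𝕜 X → WeakSpace 𝕜 X := fun y => u • ((a : 𝕜) • y - (b : 𝕜) • (toWeakSpace 𝕜 X x))
  have hTw : Continuous Tw := by
    have h1 : Continuous fun y : WeakSpace 𝕜 X => (a : 𝕜) • y := continuous_const_smul _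
    exact (h1.sub continuous_const).const_smul u
  have hTT : ∀ y, toWeakSpace 𝕜 X (T y) = Tw (toWeakSpace 𝕜 X y) := by
    intro y
    show toWeakSpace 𝕜 X (u • ((a : 𝕜) • y - (b : 𝕜) • x)) =
      u • ((a : 𝕜) • toWeakSpace 𝕜 X y - (b : 𝕜) • toWeakSpace 𝕜 X x)
    rw [map_smul, map_sub, map_smul, map_smul]
  have hxball : x ∈ closedBall (0 : X) 1 := by rwa [mem_closedBall_zero_iff]
  have hxW : x ∈ closedBall (0 : X) 1 ∩ toWeakSpace 𝕜 X ⁻¹' (Tw ⁻¹' U) := by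
    refine ⟨hxball, ?_⟩
    show Tw (toWeakSpace 𝕜 X x) ∈ U
    rw [← hTT, hTx]
    exact hxV.2
  have key := hx2 _ ⟨⟨x, hxW⟩, Tw ⁻¹' U, hU.preimage hTw, rfl⟩ hxW
  constructor
  · rintro _ ⟨y, hy, rfl⟩
    have hy1 : ‖y‖ ≤ 1 := by
      have := hy.1
      rwa [mem_closedBall_zero_iff] at this
    have := norm_sub_le (c • x) y
    show ‖c • x - y‖ ≤ 1 + ‖c • x‖
    linarith
  · intro M hM
    have hM' : ∀ y ∈ closedBall (0 : X) 1 ∩ toWeakSpace 𝕜 X ⁻¹' (Tw ⁻¹' U),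
        a * ‖x - y‖ ≤ M := by
      intro y hy
      rw [← hTdist]
      apply hM
      refine ⟨T y, ⟨hTball y hy.1, ?_⟩, rfl⟩
      show toWeakSpace 𝕜 X (T y) ∈ U
      rw [hTT]
      exact hy.2
    rw [hcs, ← has]
    have hapos : 0 < a := by
      rw [ha]
      apply div_pos _ h1s
      have : 0 ≤ ‖c‖ * s := by positivity
      linarith
    rw [← le_div_iff₀' hapos]
    apply key.2
    rintro _ ⟨y, hy, rfl⟩
    rw [le_div_iff₀' hapos]
    exact hM' y hy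

end Pool.Agent.Results.MP_48b6db_an.RaysOfSuperDelta
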